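import Pool.Agent.MP_ca0a54_nt.H24.Spec

/-!
Arithmetic of the coefficients of `ζ(s + u) / ζ(s + v)`.
-/

open Complex ArithmeticFunction

namespace Pool.Agent.MP_ca0a54_nt.H88

open Pool.Agent.MP_ca0a54_nt.H24

lemma np_mul (z : ℂ) {m n : ℕ} (hm : m ≠ 0) (hn : n ≠ 0) : np z (m * n) = np z m * np z n := by
  unfold np
  rw [← Complex.exp_add, Nat.cast_mul,
    Real.log_mul (Nat.cast_ne_zero.2 hm) (Nat.cast_ne_zero.2 hn)]
  congr 1
  push_cast
  ring

lemma np_one (z : ℂ) : np z 1 = 1 := by simp [np]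

lemma np_zero (n : ℕ) : np 0 n = 1 := by simp [np]

lemma np_add (u z : ℂ) (n : ℕ) : np (u + z) n = np u n * np z n := by
  unfold np
  rw [← Complex.exp_add]
  congr 1
  ring

lemma np_pow (z : ℂ) {p : ℕ} (hp : p ≠ 0) (k : ℕ) : np z (p ^ k) = np z p ^ k := by
  induction k with
  | zero => simp [np_one]
  | succ k ih => rw [pow_succ, np_mul z (pow_ne_zero _ hp) hp, ih, pow_succ]

lemma np_real (y : ℝ) (n : ℕ) : np y n = ((Real.exp (-y * Real.log n) : ℝ) : ℂ) := by
  unfold np
  push_cast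
  rfl

/-- Twist by `n ^ (-z)`. -/
noncomputable def tw (z : ℂ) (f : ArithmeticFunction ℂ) : ArithmeticFunction ℂ :=
  ⟨fun n => f n * np z n, by simp⟩

lemma tw_apply (z : ℂ) (f : ArithmeticFunction ℂ) (n : ℕ) : tw z f n = f n * np z n := rfl

lemma tw_mul (z : ℂ) (f g : ArithmeticFunction ℂ) : tw z (f * g) = tw z f * tw z g := by
  ext n
  rw [tw_apply, mul_apply, mul_apply, Finset.sum_mul]
  refine Finset.sum_congr rfl fun p hp => ?_
  have h := Nat.mem_divisorsAntidiagonal.1 hp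
  have h1 := Nat.ne_zero_of_mem_divisorsAntidiagonal hp
  rw [tw_apply, tw_apply, ← h.1, np_mul z h1.1 h1.2]
  ring

lemma tw_one (z : ℂ) : tw z 1 = 1 := by
  ext n
  rw [tw_apply]
  by_cases h : n = 1
  · subst h
    simp [np_one]
  · simp [one_apply_ne h]

lemma tw_tw (z u : ℂ) (f : ArithmeticFunction ℂ) : tw z (tw u f) = tw (u + z) f := by
  ext n
  rw [tw_apply, tw_apply, tw_apply, np_add, mul_assoc]

lemma tw_zero (f : ArithmeticFunction ℂ) : tw 0 f = f := by
  ext n
  rw [tw_apply, np_zero, mul_one]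

lemma tw_mult (z : ℂ) {f : ArithmeticFunction ℂ} (hf : f.IsMultiplicative) :
    (tw z f).IsMultiplicative := by
  refine ⟨by rw [tw_apply, hf.1, np_one, mul_one], fun {m n} hmn => ?_⟩
  rcases Nat.eq_zero_or_pos m with rfl | hm
  · simp
  rcases Nat.eq_zero_or_pos n with rfl | hn
  · simp
  rw [tw_apply, tw_apply, tw_apply, hf.2 hmn, np_mul z hm.ne' hn.ne']
  ring

/-- The constant function one. -/
noncomputable def ze : ArithmeticFunction ℂ := (zeta : ArithmeticFunction ℕ)

/-- The Moebius function. -/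
noncomputable def mu : ArithmeticFunction ℂ := (moebius : ArithmeticFunction ℤ)

lemma ze_apply {n : ℕ} (hn : n ≠ 0) : ze n = 1 := by simp [ze, natCoe_apply, zeta_apply, hn]

lemma mu_apply (n : ℕ) : mu n = ((moebius n : ℤ) : ℂ) := by simp [mu, intCoe_apply]

lemma ze_mu : ze * mu = 1 := coe_zeta_mul_coe_moebius

lemma rc_eq (u v : ℂ) : rc u v = ⇑(tw u ze * tw v mu) := by
  rw [← ArithmeticFunction.coe_mul]
  unfold rc
  refine LSeries.convolution_congr (fun {n} hn => ?_) (fun {n} _ => ?_)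
  · rw [tw_apply, ze_apply hn, one_mul]
  · rw [tw_apply, mu_apply]

lemma tw_inv (u : ℂ) : tw u ze * tw u mu = 1 := by rw [← tw_mul, ze_mu, tw_one]

lemma part1 (u v w : ℂ) : cv (rc u v) (rc w u) = rc w v := by
  rw [rc_eq, rc_eq, rc_eq]
  unfold cv
  rw [ArithmeticFunction.coe_mul]
  congr 1
  calc tw u ze * tw v mu * (tw w ze * tw u mu) = tw w ze * tw v mu * (tw u ze * tw u mu) := by ring
    _ = _ := by rw [tw_inv, mul_one]

lemma part2 (u v z : ℂ) (n : ℕ) : rc (u + z) (v + z) n = rc u v n * np z n := by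
  rw [rc_eq, rc_eq, ← tw_tw, ← tw_tw, ← tw_mul, tw_apply]

lemma term_tw (u s : ℂ) (f : ArithmeticFunction ℂ) :
    LSeries.term (tw u f) s = LSeries.term f (s + u) := by
  ext n
  rcases eq_or_ne n 0 with rfl | hn
  · simp
  have hn' : (n : ℂ) ≠ 0 := Nat.cast_ne_zero.2 hn
  rw [LSeries.term_of_ne_zero hn, LSeries.term_of_ne_zero hn, tw_apply, cpow_add _ _ hn',
    cpow_def_of_ne_zero hn' u, np, ← Complex.natCast_log, neg_mul, Complex.exp_neg, mul_comm u]
  have : cexp ((Real.log n : ℂ) * u) ≠ 0 := Complex.exp_ne_zero _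
  field_simp

lemma ze_coe : (⇑ze : ℕ → ℂ) = fun n => ((zeta n : ℕ) : ℂ) := by
  ext n
  simp [ze, natCoe_apply]

lemma mu_coe : (⇑mu : ℕ → ℂ) = fun n => ((moebius n : ℤ) : ℂ) := by
  ext n
  exact mu_apply n

lemma part3 (u v s : ℂ) (hu : 1 < (s + u).re) (hv : 1 < (s + v).re) :
    LSeriesSummable (rc u v) s ∧
      LSeries (rc u v) s = riemannZeta (s + u) / riemannZeta (s + v) := by
  have h1 : LSeriesSummable (tw u ze) s := by
    unfold LSeriesSummable
    rw [term_tw, ze_coe]
    exact LSeriesSummable_zeta_iff.2 hu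
  have h2 : LSeriesSummable (tw v mu) s := by
    unfold LSeriesSummable
    rw [term_tw, mu_coe]
    exact LSeriesSummable_moebius_iff.2 hv
  have e1 : LSeries (tw u ze) s = riemannZeta (s + u) := by
    rw [← LSeries_zeta_eq_riemannZeta hu]
    unfold LSeries
    rw [term_tw, ze_coe]
  have e2 : riemannZeta (s + v) * LSeries (tw v mu) s = 1 := by
    rw [← LSeries_zeta_eq_riemannZeta hv, ← LSeries_zeta_mul_Lseries_moebius hv]
    congr 1
    unfold LSeries
    rw [term_tw, mu_coe]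
  have hz : riemannZeta (s + v) ≠ 0 := left_ne_zero_of_mul_eq_one e2
  rw [rc_eq]
  refine ⟨ArithmeticFunction.LSeriesSummable_mul h1 h2, ?_⟩
  have := ArithmeticFunction.LSeries_mul' h1 h2
  refine this.trans ?_
  change LSeries (tw u ze) s * LSeries (tw v mu) s = _
  rw [e1, eq_div_iff hz, mul_assoc, mul_comm (LSeries _ _), e2, mul_one]

lemma rc_mult (u v : ℂ) : (tw u ze * tw v mu).IsMultiplicative :=
  (tw_mult u isMultiplicative_zeta.natCast).mul (tw_mult v isMultiplicative_moebius.intCast)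

lemma rc_zero (u v : ℂ) : rc u v 0 = 0 := by rw [rc_eq]; simp

lemma rc_one (u v : ℂ) : rc u v 1 = 1 := by rw [rc_eq]; exact (rc_mult u v).1

lemma rc_cop (u v : ℂ) {m n : ℕ} (h : m.Coprime n) : rc u v (m * n) = rc u v m * rc u v n := by
  rw [rc_eq]
  exact (rc_mult u v).2 h

lemma rc_pp (u v : ℂ) {p : ℕ} (k : ℕ) (hp : p.Prime) :
    rc u v (p ^ (k + 1)) = np u p ^ k * (np u p - np v p) := by
  have hp0 := hp.ne_zero
  rw [rc_eq, mul_apply, Nat.sum_divisorsAntidiagonal' (fun a b => tw u ze a * tw v mu b),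
    Nat.sum_divisors_prime_pow hp, Finset.sum_range_succ', Finset.sum_range_succ']
  have hz : ∑ i ∈ Finset.range k, tw u ze (p ^ (k + 1) / p ^ (i + 1 + 1)) *
      tw v mu (p ^ (i + 1 + 1)) = 0 := by
    refine Finset.sum_eq_zero fun i _ => ?_
    rw [tw_apply v, mu_apply, moebius_apply_prime_pow hp (by omega), if_neg (by omega)]
    simp
  have hd : p ^ (k + 1) / p ^ (0 + 1) = p ^ k := by
    rw [zero_add, pow_one, pow_succ, Nat.mul_div_cancel _ hp.pos]
  rw [hz, hd, pow_zero, Nat.div_one, zero_add, zero_add, pow_one]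
  simp only [tw_apply]
  rw [ze_apply (pow_ne_zero _ hp0), ze_apply (pow_ne_zero _ hp0), mu_apply, mu_apply,
    moebius_apply_prime hp, moebius_apply_one, np_pow u hp0, np_pow u hp0, np_one]
  push_cast
  ring

lemma part5 (y : ℝ) (hy : 0 ≤ y) (n : ℕ) : ‖rc y 0 n‖ ≤ (rc 0 y n).re ∧ (rc 0 y n).re ≤ 1 ∧
    (rc 0 y n).im = 0 ∧ (rc y 0 n).im = 0 ∧ (n ≠ 1 → ‖rc y 0 n‖ ≤ y * Real.log n) := by
  induction n using Nat.recOnPosPrimePosCoprime with
  | zero => simp [rc_zero]
  | one => simp [rc_one]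
  | prime_pow p k hp hk =>
    obtain ⟨k, rfl⟩ : ∃ j, k = j + 1 := ⟨k - 1, by omega⟩
    have hl : 0 ≤ Real.log p := Real.log_natCast_nonneg p
    set x := Real.exp (-y * Real.log p) with hx
    have hx0 : 0 < x := Real.exp_pos _
    have hx1 : x ≤ 1 := Real.exp_le_one_iff.2 (by nlinarith)
    have hx2 : 1 - x ≤ y * Real.log p := by
      have := Real.add_one_le_exp (-y * Real.log p)
      linarith
    have e1 : rc y 0 (p ^ (k + 1)) = ((x ^ k * (x - 1) : ℝ) : ℂ) := by
      rw [rc_pp _ _ k hp, np_zero, np_real]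
      push_cast
      rw [hx]
      push_cast
      ring
    have e2 : rc 0 y (p ^ (k + 1)) = ((1 - x : ℝ) : ℂ) := by
      rw [rc_pp _ _ k hp, np_zero, np_real, ← hx]
      push_cast
      ring
    have hk1 : x ^ k ≤ 1 := pow_le_one₀ hx0.le hx1
    have hk0 : 0 ≤ x ^ k := pow_nonneg hx0.le _
    have hn : ‖rc y 0 (p ^ (k + 1))‖ ≤ 1 - x := by
      rw [e1, Complex.norm_real, Real.norm_eq_abs, abs_mul, abs_of_nonneg hk0,
        abs_of_nonpos (by linarith)]
      nlinarith
    refine ⟨by rw [e2, ofReal_re]; exact hn, by rw [e2, ofReal_re]; linarith,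
      by rw [e2, ofReal_im], by rw [e1, ofReal_im], fun _ => ?_⟩
    rw [Nat.cast_pow, Real.log_pow]
    have : y * Real.log p ≤ y * (((k + 1 : ℕ) : ℝ) * Real.log p) := by
      refine mul_le_mul_of_nonneg_left ?_ hy
      have : (0 : ℝ) ≤ k := Nat.cast_nonneg k
      push_cast
      nlinarith
    linarith
  | coprime a b ha hb hab iha ihb =>
    obtain ⟨a1, a2, a3, a4, a5⟩ := iha
    obtain ⟨b1, b2, b3, b4, -⟩ := ihb
    have a0 := norm_nonneg (rc y 0 a)
    have b0 := norm_nonneg (rc y 0 b)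
    rw [rc_cop _ _ hab, rc_cop _ _ hab, norm_mul, mul_re, mul_im, mul_im, a3, a4, b3, b4]
    refine ⟨?_, ?_, by ring, by ring, fun _ => ?_⟩
    · have := mul_le_mul a1 b1 b0 (a0.trans a1)
      linarith
    · have := mul_le_mul a2 b2 (b0.trans b1) zero_le_one
      linarith
    · have h1 := a5 (by omega)
      have h2 : Real.log a ≤ Real.log ((a * b : ℕ) : ℝ) := by
        refine Real.log_le_log (by exact_mod_cast (by omega : 0 < a)) ?_
        exact_mod_cast Nat.le_mul_of_pos_right a (by omega)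
      have h3 := mul_le_mul_of_nonneg_left h2 hy
      have h4 : ‖rc y 0 a‖ * ‖rc y 0 b‖ ≤ ‖rc y 0 a‖ * 1 :=
        mul_le_mul_of_nonneg_left (b1.trans b2) a0
      linarith

/-- The absolute values of the coefficients of `ζ(s) / ζ(s + v)`. -/
noncomputable def nb (v : ℂ) : ArithmeticFunction ℝ := ⟨fun n => ‖rc 0 v n‖, by simp [rc_zero]⟩

lemma nb_apply (v : ℂ) (n : ℕ) : nb v n = ‖rc 0 v n‖ := rfl

lemma nb_mult (v : ℂ) : (nb v).IsMultiplicative :=
  ⟨by rw [nb_apply, rc_one, norm_one], fun {m n} h => by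
    rw [nb_apply, nb_apply, nb_apply, rc_cop _ _ h, norm_mul]⟩

lemma part6 (a : ℝ) (ha : 0 ≤ a) (n : ℕ) :
    ∑ k ∈ n.divisors, ‖rc 0 (I * a) k‖ ≤ Real.exp (a * Real.log n) := by
  have hm : ((zeta : ArithmeticFunction ℕ) * nb (I * a)).IsMultiplicative :=
    isMultiplicative_zeta.natCast.mul (nb_mult _)
  have he : ∀ m : ℕ, ∑ k ∈ m.divisors, ‖rc 0 (I * a) k‖ =
      ((zeta : ArithmeticFunction ℕ) * nb (I * a)) m := fun m => by
    rw [coe_zeta_mul_apply]
    rfl
  induction n using Nat.recOnPosPrimePosCoprime with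
  | zero => simp
  | one => simp [rc_one]
  | prime_pow p k hp hk =>
    have hl : 0 ≤ Real.log p := Real.log_natCast_nonneg p
    rw [Nat.sum_divisors_prime_pow hp, Finset.sum_range_succ', pow_zero, rc_one, norm_one]
    have h1 : ∀ i ∈ Finset.range k, ‖rc 0 (I * a) (p ^ (i + 1))‖ ≤ a * Real.log p := by
      intro i _
      rw [rc_pp _ _ i hp, np_zero, one_pow, one_mul, norm_sub_rev]
      have h := Real.norm_exp_I_mul_ofReal_sub_one_le (x := -(a * Real.log p))
      rw [norm_neg, Real.norm_of_nonneg (mul_nonneg ha hl)] at h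
      have e : np (I * a) p = cexp (I * ((-(a * Real.log p) : ℝ) : ℂ)) := by
        unfold np
        congr 1
        push_cast
        ring
      rw [e]
      exact h
    have h2 := Finset.sum_le_card_nsmul _ _ _ h1
    rw [Finset.card_range, nsmul_eq_mul] at h2
    rw [Nat.cast_pow, Real.log_pow]
    have h3 := Real.add_one_le_exp (a * (k * Real.log p))
    linarith
  | coprime b c hb hc hbc ihb ihc =>
    rw [he, hm.2 hbc, ← he, ← he, Nat.cast_mul,
      Real.log_mul (by exact_mod_cast (by omega : b ≠ 0)) (by exact_mod_cast (by omega : c ≠ 0)),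
      mul_add, Real.exp_add]
    exact mul_le_mul ihb ihc (Finset.sum_nonneg fun _ _ => norm_nonneg _) (Real.exp_pos _).le

/-- Multiplication by the logarithm. -/
noncomputable def dl (f : ArithmeticFunction ℂ) : ArithmeticFunction ℂ :=
  ⟨fun n => f n * (Real.log n : ℂ), by simp⟩

lemma dl_apply (f : ArithmeticFunction ℂ) (n : ℕ) : dl f n = f n * (Real.log n : ℂ) := rfl

lemma dl_mul (f g : ArithmeticFunction ℂ) : dl (f * g) = dl f * g + f * dl g := by
  ext n
  rw [dl_apply, ArithmeticFunction.add_apply, mul_apply, mul_apply, mul_apply, Finset.sum_mul,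
    ← Finset.sum_add_distrib]
  refine Finset.sum_congr rfl fun p hp => ?_
  have h := Nat.mem_divisorsAntidiagonal.1 hp
  have h1 := Nat.ne_zero_of_mem_divisorsAntidiagonal hp
  rw [dl_apply, dl_apply, ← h.1, Nat.cast_mul,
    Real.log_mul (Nat.cast_ne_zero.2 h1.1) (Nat.cast_ne_zero.2 h1.2)]
  push_cast
  ring

lemma dl_one : dl 1 = 0 := by
  ext n
  rw [dl_apply]
  by_cases h : n = 1
  · subst h
    simp
  · simp [one_apply_ne h]

lemma dl_tw (z : ℂ) (f : ArithmeticFunction ℂ) : dl (tw z f) = tw z (dl f) := by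
  ext n
  rw [dl_apply, tw_apply, tw_apply, dl_apply]
  ring

/-- The von Mangoldt function. -/
noncomputable def la : ArithmeticFunction ℂ := ⟨fun n => ((vonMangoldt n : ℝ) : ℂ), by simp⟩

lemma la_apply (n : ℕ) : la n = ((vonMangoldt n : ℝ) : ℂ) := rfl

lemma dl_ze : dl ze = la * ze := by
  ext n
  rcases eq_or_ne n 0 with rfl | hn
  · simp
  rw [dl_apply, ze_apply hn, one_mul, mul_comm la, ze, coe_zeta_mul_apply, ← vonMangoldt_sum]
  push_cast
  rfl

lemma dl_mu : dl mu = -(la * mu) := by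
  have h := dl_mul ze mu
  rw [ze_mu, dl_one, dl_ze] at h
  calc dl mu = ze * mu * dl mu := by rw [ze_mu, one_mul]
    _ = mu * (la * ze * mu + ze * dl mu) - ze * mu * (la * mu) := by ring
    _ = _ := by rw [← h, ze_mu]; ring

lemma part7 (y : ℝ) (n : ℕ) : rc y 0 n * (Real.log n : ℂ) =
    -cv (fun d => ((vonMangoldt d * (1 - Real.exp (-y * Real.log d)) : ℝ) : ℂ)) (rc y 0) n := by
  have e : (fun d : ℕ => ((vonMangoldt d * (1 - Real.exp (-y * Real.log d)) : ℝ) : ℂ)) =
      ⇑(la - tw y la) := by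
    ext d
    rw [sub_eq_add_neg la, ArithmeticFunction.add_apply, ArithmeticFunction.neg_apply,
      tw_apply, la_apply, np_real]
    push_cast
    ring
  rw [e, rc_eq]
  unfold cv
  rw [ArithmeticFunction.coe_mul, ← dl_apply, ← ArithmeticFunction.neg_apply,
    dl_mul, dl_tw, dl_ze, tw_mul, tw_zero,
    dl_mu]
  congr 1
  ring

lemma log_succ {n : ℕ} (hn : 1 ≤ n) :
    1 / ((n : ℝ) + 1) ≤ Real.log (n + 1) - Real.log n ∧
      Real.log (n + 1) - Real.log n ≤ 1 / (n : ℝ) := by
  have h0 : (0 : ℝ) < n := by exact_mod_cast hn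
  have h1 : (0 : ℝ) < (n + 1) / n := by positivity
  rw [← Real.log_div (by positivity) h0.ne']
  constructor
  · have := Real.one_sub_inv_le_log_of_pos h1
    have e : 1 - (((n : ℝ) + 1) / n)⁻¹ = 1 / (n + 1) := by field_simp; ring
    linarith
  · have := Real.log_le_sub_one_of_pos h1
    have e : ((n : ℝ) + 1) / n - 1 = 1 / n := by field_simp; ring
    linarith

lemma exp_split (β x : ℝ) (hx : 0 < x) :
    Real.exp (-(1 + β) * Real.log x) = 1 / x * Real.exp (-β * Real.log x) := by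
  rw [show -(1 + β) * Real.log x = -Real.log x + -β * Real.log x by ring, Real.exp_add,
    Real.exp_neg, Real.exp_log hx, one_div]

lemma zeta_up (β : ℝ) (hβ : 0 < β) (K : ℕ) :
    ∑ n ∈ Finset.Icc 1 (K + 1), Real.exp (-(1 + β) * Real.log n) ≤
      1 + (1 - Real.exp (-β * Real.log ((K + 1 : ℕ) : ℝ))) / β := by
  induction K with
  | zero => simp
  | succ K ih =>
    rw [Finset.sum_Icc_succ_top (by omega)]
    have h1 := (log_succ (n := K + 1) (by omega)).1
    set a := Real.log ((K + 1 : ℕ) : ℝ)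
    have e : (((K + 1 + 1 : ℕ) : ℝ)) = ((K + 1 : ℕ) : ℝ) + 1 := by push_cast; ring
    rw [e, exp_split β _ (by positivity)]
    set b := Real.log (((K + 1 : ℕ) : ℝ) + 1)
    set c := 1 / (((K + 1 : ℕ) : ℝ) + 1)
    have h2 : Real.exp (-β * a) = Real.exp (-β * b) * Real.exp (β * (b - a)) := by
      rw [← Real.exp_add]
      congr 1
      ring
    have h3 := Real.add_one_le_exp (β * (b - a))
    have h4 := Real.exp_pos (-β * b)
    have h5 : c * Real.exp (-β * b) ≤ (Real.exp (-β * a) - Real.exp (-β * b)) / β := by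
      rw [le_div_iff₀ hβ, h2]
      have : β * c ≤ β * (b - a) := mul_le_mul_of_nonneg_left h1 hβ.le
      nlinarith
    have h6 : (1 - Real.exp (-β * b)) / β =
        (1 - Real.exp (-β * a)) / β + (Real.exp (-β * a) - Real.exp (-β * b)) / β := by ring
    linarith

lemma zeta_low (β : ℝ) (hβ : 0 < β) (K : ℕ) :
    (1 - Real.exp (-β * Real.log ((K : ℝ) + 1))) / β ≤
      ∑ n ∈ Finset.Icc 1 K, Real.exp (-(1 + β) * Real.log n) := by
  induction K with
  | zero => simp
  | succ K ih =>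
    rw [Finset.sum_Icc_succ_top (by omega)]
    have h1 := (log_succ (n := K + 1) (by omega)).2
    rw [exp_split β _ (by positivity)]
    have e : ((K : ℝ) + 1) = ((K + 1 : ℕ) : ℝ) := by push_cast; ring
    rw [e] at ih
    set a := Real.log ((K + 1 : ℕ) : ℝ)
    set b := Real.log (((K + 1 : ℕ) : ℝ) + 1)
    set c := 1 / ((K + 1 : ℕ) : ℝ)
    have h2 : Real.exp (-β * b) = Real.exp (-β * a) * Real.exp (-(β * (b - a))) := by
      rw [← Real.exp_add]
      congr 1
      ring
    have h3 := Real.add_one_le_exp (-(β * (b - a)))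
    have h4 := Real.exp_pos (-β * a)
    have h5 : (Real.exp (-β * a) - Real.exp (-β * b)) / β ≤ c * Real.exp (-β * a) := by
      rw [div_le_iff₀ hβ, h2]
      have : β * (b - a) ≤ β * c := mul_le_mul_of_nonneg_left h1 hβ.le
      nlinarith
    have h6 : (1 - Real.exp (-β * b)) / β =
        (1 - Real.exp (-β * a)) / β + (Real.exp (-β * a) - Real.exp (-β * b)) / β := by ring
    linarith

lemma prod_le (s : ℝ) (N M : ℕ) :
    (∑ n ∈ Finset.Icc 1 N, vonMangoldt n * Real.exp (-s * Real.log n)) *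
      ∑ m ∈ Finset.Icc 1 M, Real.exp (-s * Real.log m) ≤
    ∑ k ∈ Finset.Icc 1 (N * M + 1), Real.log k * Real.exp (-s * Real.log k) := by
  rw [Finset.sum_mul_sum, ← Finset.sum_product']
  have hmap : ∀ p ∈ Finset.Icc 1 N ×ˢ Finset.Icc 1 M, p.1 * p.2 ∈ Finset.Icc 1 (N * M + 1) := by
    intro p hp
    simp only [Finset.mem_product, Finset.mem_Icc] at hp ⊢
    exact ⟨Nat.mul_pos hp.1.1 hp.2.1, (Nat.mul_le_mul hp.1.2 hp.2.2).trans (Nat.le_succ _)⟩
  rw [← Finset.sum_fiberwise_of_maps_to hmap]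
  refine Finset.sum_le_sum fun k hk => ?_
  have hk0 : k ≠ 0 := by have := (Finset.mem_Icc.1 hk).1; omega
  calc _ = ∑ p ∈ (Finset.Icc 1 N ×ˢ Finset.Icc 1 M).filter fun p => p.1 * p.2 = k,
        vonMangoldt p.1 * Real.exp (-s * Real.log k) := by
        refine Finset.sum_congr rfl fun p hp => ?_
        simp only [Finset.mem_filter, Finset.mem_product, Finset.mem_Icc] at hp
        rw [mul_assoc, ← Real.exp_add, ← hp.2, Nat.cast_mul,
          Real.log_mul (by exact_mod_cast (by omega : p.1 ≠ 0))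
            (by exact_mod_cast (by omega : p.2 ≠ 0)), mul_add]
    _ ≤ ∑ p ∈ k.divisorsAntidiagonal, vonMangoldt p.1 * Real.exp (-s * Real.log k) := by
        refine Finset.sum_le_sum_of_subset_of_nonneg (fun p hp => ?_) fun p _ _ =>
          mul_nonneg vonMangoldt_nonneg (Real.exp_pos _).le
        exact Nat.mem_divisorsAntidiagonal.2 ⟨(Finset.mem_filter.1 hp).2, hk0⟩
    _ = _ := by
        rw [← Finset.sum_mul, Nat.sum_divisorsAntidiagonal (fun a _ => vonMangoldt a),
          vonMangoldt_sum]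

lemma part8 (α : ℝ) (N : ℕ) (h0 : 0 < α) (h1 : α ≤ 1) :
    ∑ n ∈ Finset.Icc 1 N, vonMangoldt n * Real.exp (-(1 + α) * Real.log n) ≤ 12 / α := by
  set M := ⌈Real.exp (1 / α)⌉₊
  have hM : 1 / α ≤ Real.log ((M : ℝ) + 1) := by
    rw [Real.le_log_iff_exp_le (by positivity)]
    have := Nat.le_ceil (Real.exp (1 / α))
    linarith
  have hB : 1 / (2 * α) ≤ ∑ m ∈ Finset.Icc 1 M, Real.exp (-(1 + α) * Real.log m) := by
    refine le_trans ?_ (zeta_low α h0 M)
    have h2 : Real.exp (-α * Real.log ((M : ℝ) + 1)) ≤ Real.exp (-1) := by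
      refine Real.exp_le_exp.2 ?_
      rw [div_le_iff₀ h0] at hM
      linarith
    have h3 : Real.exp (-1) ≤ 1 / 2 := by
      rw [Real.exp_neg, one_div]
      refine inv_anti₀ (by norm_num) ?_
      have := Real.add_one_le_exp 1
      linarith
    rw [div_le_div_iff₀ (by positivity) h0]
    nlinarith
  have hC : ∑ k ∈ Finset.Icc 1 (N * M + 1), Real.log k * Real.exp (-(1 + α) * Real.log k) ≤
      6 / α ^ 2 := by
    have h2 := zeta_up (α / 2) (by positivity) (N * M)
    have h3 := Real.exp_pos (-(α / 2) * Real.log ((N * M + 1 : ℕ) : ℝ))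
    have h4 : ∑ k ∈ Finset.Icc 1 (N * M + 1), Real.exp (-(1 + α / 2) * Real.log k) ≤ 3 / α := by
      refine h2.trans ?_
      have h5 : (1 - Real.exp (-(α / 2) * Real.log ((N * M + 1 : ℕ) : ℝ))) / (α / 2) ≤
          1 / (α / 2) := div_le_div_of_nonneg_right (by linarith) (by positivity)
      have h6 : 1 ≤ 1 / α := by rw [le_div_iff₀ h0]; linarith
      have h7 : 1 / (α / 2) = 2 * (1 / α) := by field_simp
      have h8 : 3 / α = 3 * (1 / α) := by ring
      linarith
    calc _ ≤ ∑ k ∈ Finset.Icc 1 (N * M + 1), 2 / α * Real.exp (-(1 + α / 2) * Real.log k) := by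
          refine Finset.sum_le_sum fun k _ => ?_
          have e : Real.exp (-(1 + α / 2) * Real.log k) =
              Real.exp (α / 2 * Real.log k) * Real.exp (-(1 + α) * Real.log k) := by
            rw [← Real.exp_add]
            congr 1
            ring
          rw [e, ← mul_assoc]
          refine mul_le_mul_of_nonneg_right ?_ (Real.exp_pos _).le
          have := Real.add_one_le_exp (α / 2 * Real.log k)
          rw [div_mul_eq_mul_div, le_div_iff₀ h0]
          linarith
      _ ≤ 2 / α * (3 / α) := by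
          rw [← Finset.mul_sum]
          exact mul_le_mul_of_nonneg_left h4 (by positivity)
      _ = _ := by field_simp; ring
  have hA : 0 ≤ ∑ n ∈ Finset.Icc 1 N, vonMangoldt n * Real.exp (-(1 + α) * Real.log n) :=
    Finset.sum_nonneg fun _ _ => mul_nonneg vonMangoldt_nonneg (Real.exp_pos _).le
  have h2 := ((mul_le_mul_of_nonneg_left hB hA).trans (prod_le (1 + α) N M)).trans hC
  rw [mul_one_div, div_le_div_iff₀ (by positivity) (by positivity)] at h2
  rw [le_div_iff₀ h0]
  nlinarith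

theorem ar1 : Ar1Stmt :=
  ⟨part1, part2, part3,
    fun u v => ⟨rc_zero u v, rc_one u v, fun _ _ h => rc_cop u v h, fun _ k hp => rc_pp u v k hp⟩,
    fun y n hy => part5 y hy n, fun a n ha => part6 a ha n, part7, part8⟩

end Pool.Agent.MP_ca0a54_nt.H88
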