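import Pool.Agent.MP_ca0a54_nt.H29.Spec
import Pool.Agent.MP_ca0a54_nt.H22.SF
import Pool.Agent.MP_ca0a54_nt.L0.ZetaA

/-!
Row CMP: comparison of the rational sum at two heights, a crude bound for the logarithmic
derivative, and integration of the logarithmic derivative along a segment.
-/

open Complex MeasureTheory Filter Topology

namespace Pool.Agent.MP_ca0a54_nt.H88

open Pool.Agent.MP_ca0a54_nt.L0 Pool.Agent.MP_ca0a54_nt.H24 Pool.Agent.MP_ca0a54_nt.H29

lemma rs_eq (U : Finset ℝ) (m : ℝ → ℕ) (w : ℂ) :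
    rs U m w = ∑ u ∈ U, ((m u : ℝ) : ℂ) / (w - (u : ℂ)) := by
  simp [rs, rat]

lemma sq_norm (x y u : ℝ) : ‖(x - y * I : ℂ) - u‖ ^ 2 = (x - u) ^ 2 + y ^ 2 := by
  rw [Complex.sq_norm, normSq_apply]
  simp
  ring

lemma one_term (c x y u : ℝ) (hc : 0 ≤ c) (hy : 0 < y) (w : ℂ) (hw : w.im < 0) :
    ‖(c : ℂ) / (w - u) - c / ((x - y * I) - u)‖ ≤
      ‖w - (x - y * I)‖ * (1 + ‖w - (x - y * I)‖ / (-w.im)) *
        (c * (y / ((x - u) ^ 2 + y ^ 2)) / y) := by
  set w0 : ℂ := x - y * I with hw0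
  set δ := ‖w - w0‖ with hδ
  have hδ0 : 0 ≤ δ := norm_nonneg _
  have h1 : -w.im ≤ ‖w - u‖ := by
    have := Complex.abs_im_le_norm (w - u)
    simp only [sub_im, ofReal_im, sub_zero] at this
    exact (neg_le_abs _).trans this
  have hp : 0 < ‖w - u‖ := by linarith
  have hs : ‖w0 - u‖ ^ 2 = (x - u) ^ 2 + y ^ 2 := sq_norm x y u
  have hq : 0 < ‖w0 - u‖ := by
    refine lt_of_le_of_ne (norm_nonneg _) fun h => ?_
    rw [← h] at hs
    nlinarith [sq_nonneg (x - u)]
  have h2 : ‖w0 - u‖ ≤ ‖w - u‖ * (1 + δ / (-w.im)) := by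
    have h3 : ‖w0 - u‖ ≤ ‖w - u‖ + δ := by
      have : w0 - u = (w - u) - (w - w0) := by ring
      rw [this]
      exact norm_sub_le _ _
    have h4 : δ ≤ ‖w - u‖ * (δ / (-w.im)) := by
      rw [mul_div_assoc', le_div_iff₀ (by linarith)]
      nlinarith
    linarith
  have e : (c : ℂ) / (w - u) - c / (w0 - u) = -(c * (w - w0) / ((w - u) * (w0 - u))) := by
    have := norm_pos_iff.1 hp
    have := norm_pos_iff.1 hq
    field_simp
    ring
  have e2 : c * (y / ((x - u) ^ 2 + y ^ 2)) / y = c / ‖w0 - u‖ ^ 2 := by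
    rw [hs]
    field_simp
  rw [e, e2, norm_neg, norm_div, norm_mul, norm_mul, Complex.norm_real, Real.norm_of_nonneg hc,
    ← hδ, mul_div_assoc', div_le_div_iff₀ (by positivity) (by positivity)]
  have := mul_le_mul_of_nonneg_left h2 (show 0 ≤ c * δ * ‖w0 - u‖ by positivity)
  nlinarith

theorem cmp : CmpStmt := by
  intro U m x y hy
  refine ⟨?_, fun w hw => ?_⟩
  · rw [rs_eq, im_sum, Fs]
    refine Finset.sum_congr rfl fun u _ => ?_
    rw [div_im, ← Complex.sq_norm, sq_norm]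
    simp
    ring
  · rw [rs_eq, rs_eq, ← Finset.sum_sub_distrib, Fs, Finset.sum_div, Finset.mul_sum]
    exact (norm_sum_le _ _).trans (Finset.sum_le_sum fun u _ =>
      one_term _ x y u (Nat.cast_nonneg _) hy w hw)

theorem cr : CrStmt := by
  intro C Λ hC hΛ
  obtain ⟨Z, hZ, hb⟩ := H22.ld_bound
  filter_upwards [eventually_ge_atTop (4 : ℝ),
    Real.tendsto_log_atTop.eventually_ge_atTop (13 * Λ * (Z + 2 * C) + 2 * C)]
    with T hT hL U m hz w hw h1 h2
  set L := Real.log T with hLd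
  have hL1 : 1 ≤ L := by nlinarith [mul_nonneg (by linarith : 0 ≤ Λ) (by linarith : 0 ≤ Z + 2 * C)]
  have hΛL : 0 < Λ * L := by positivity
  have hi : 0 < -w.im := lt_of_lt_of_le (by positivity) h1
  have hsq : 2 ≤ √T := Real.le_sqrt_of_sq_le (by linarith)
  obtain ⟨κ, k1, -, k2⟩ := hz.loc w.re hw
  set w0 : ℂ := (w.re : ℂ) - ((9 / 16 : ℝ) : ℂ) * I with hw0
  have i0 : w0.im = -(9 / 16) := by simp [hw0]
  have n0 : ‖w0 - (w.re : ℂ)‖ ≤ 2 := by
    have : w0 - (w.re : ℂ) = -(((9 / 16 : ℝ) : ℂ) * I) := by rw [hw0]; ring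
    rw [this, norm_neg, norm_mul, norm_I, Complex.norm_real]
    norm_num
  have n1 : ‖w - (w.re : ℂ)‖ ≤ 2 := by
    have : w - (w.re : ℂ) = (w.im : ℂ) * I := by
      apply Complex.ext <;> simp
    rw [this, norm_mul, norm_I, Complex.norm_real, mul_one, Real.norm_eq_abs, abs_le]
    constructor <;> linarith
  have n2 : ‖w - w0‖ ≤ 2 := by
    have : w - w0 = ((w.im + 9 / 16 : ℝ) : ℂ) * I := by
      apply Complex.ext <;> simp [hw0]
    rw [this, norm_mul, norm_I, Complex.norm_real, mul_one, Real.norm_eq_abs, abs_le]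
    constructor <;> linarith
  have hCL : 0 ≤ C * L := by positivity
  have er : ∀ z : ℂ, ‖z - (w.re : ℂ)‖ ≤ 2 → z.im < 0 → ‖ld z - rs U m z‖ ≤ 2 * (C * L) := by
    intro z hz1 hz2
    have h3 := k2 z (hz1.trans hsq) hz2
    have h4 : C * L / T * ‖z - (w.re : ℂ)‖ ≤ C * L := by
      rw [div_mul_eq_mul_div, div_le_iff₀ (by linarith)]
      exact mul_le_mul_of_nonneg_left (by linarith) hCL
    have h5 : ‖ld z - rs U m z‖ ≤ ‖ld z - rs U m z - κ‖ + ‖κ‖ := norm_le_norm_sub_add _ _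
    linarith
  have r0 : ‖rs U m w0‖ ≤ (Z + 2 * C) * L := by
    have h3 := er w0 n0 (by rw [i0]; norm_num)
    have h4 := hb w0 i0
    have h5 : ‖rs U m w0‖ ≤ ‖ld w0‖ + ‖ld w0 - rs U m w0‖ := by
      have := norm_sub_le (ld w0) (ld w0 - rs U m w0)
      rwa [sub_sub_cancel] at this
    nlinarith
  obtain ⟨c1, c2⟩ := cmp U m w.re (9 / 16) (by norm_num)
  have c3 := c2 w (by linarith)
  rw [← hw0] at c1 c3
  have f1 : Fs U m w.re (9 / 16) ≤ (Z + 2 * C) * L :=
    c1 ▸ ((le_abs_self _).trans (Complex.abs_im_le_norm _)).trans r0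
  have f0 : 0 ≤ Fs U m w.re (9 / 16) := Finset.sum_nonneg fun u _ => by positivity
  have d1 : ‖w - w0‖ / (-w.im) ≤ 2 * (Λ * L) := by
    rw [div_le_iff₀ hi]
    rw [div_le_iff₀ hΛL] at h1
    nlinarith
  have hA : 0 ≤ (Z + 2 * C) * L := by positivity
  have c4 : ‖rs U m w - rs U m w0‖ ≤ 2 * (1 + 2 * (Λ * L)) * (2 * ((Z + 2 * C) * L)) := by
    refine c3.trans (mul_le_mul (mul_le_mul n2 (by linarith) (by positivity) (by norm_num)) ?_
      (by positivity) (by positivity))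
    rw [div_le_iff₀ (by norm_num)]
    linarith
  have h6 := er w n1 (by linarith)
  have h7 : ‖ld w‖ ≤ ‖ld w - rs U m w‖ + ‖rs U m w - rs U m w0‖ + ‖rs U m w0‖ := by
    have : ld w = (ld w - rs U m w) + (rs U m w - rs U m w0) + rs U m w0 := by ring
    conv_lhs => rw [this]
    exact norm_add₃_le
  have h8 : 1 ≤ Λ * L := by nlinarith
  have h9 : 5 * ((Z + 2 * C) * L) ≤ 5 * (Λ * L * ((Z + 2 * C) * L)) := by nlinarith
  have h10 : 2 * (C * L) ≤ 2 * C * L ^ 2 := by nlinarith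
  have h11 : (13 * Λ * (Z + 2 * C) + 2 * C) * L ^ 2 ≤ L * L ^ 2 :=
    mul_le_mul_of_nonneg_right hL (by positivity)
  nlinarith

theorem seg : SegStmt := by
  intro w w' hw hw' hne
  set γ : ℝ → ℂ := fun s => w + s * (w' - w) with hγ
  have hγc : Continuous γ := by fun_prop
  have hγd : ∀ s, HasDerivAt γ (w' - w) s := fun s => by
    have := ((Complex.ofRealCLM.hasDerivAt (x := s)).mul_const (w' - w)).const_add w
    rwa [ofRealCLM_apply, ofReal_one, one_mul] at this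
  have hO : IsOpen {z : ℂ | 0 < z.re} := isOpen_lt continuous_const continuous_re
  have ha := zf_differentiableOn.analyticOnNhd hO
  have hS : IsOpen ({z : ℂ | 0 < z.re} ∩ zf ⁻¹' {0}ᶜ) :=
    zf_differentiableOn.continuousOn.isOpen_inter_preimage hO isOpen_compl_singleton
  have hmem : ∀ s ∈ Set.Icc (0 : ℝ) 1, γ s ∈ {z : ℂ | 0 < z.re} ∩ zf ⁻¹' {0}ᶜ := fun s hs => by
    refine ⟨?_, hne s hs.1 hs.2⟩
    have : (γ s).re = (1 - s) * w.re + s * w'.re := by simp [hγ]; ring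
    show 0 < (γ s).re
    rw [this]
    rcases eq_or_lt_of_le hs.1 with h | h
    · rw [← h]; simpa using hw
    · have := mul_nonneg (sub_nonneg.2 hs.2) hw.le
      have := mul_pos h hw'
      linarith
  set g : ℝ → ℂ := fun s => ld (γ s) * (w' - w) with hg
  have hc : ∀ s ∈ γ ⁻¹' ({z : ℂ | 0 < z.re} ∩ zf ⁻¹' {0}ᶜ), ContinuousAt g s := fun s hs =>
    (ContinuousAt.comp (f := γ) ((ha _ hs.1).deriv.continuousAt.div (ha _ hs.1).continuousAt hs.2)
      hγc.continuousAt).mul continuousAt_const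
  have hd : ∀ s ∈ Set.Icc (0 : ℝ) 1,
      HasDerivAt (fun s => zf (γ s) * exp (-∫ t in (0 : ℝ)..s, g t)) 0 s := fun s hs => by
    have h1 : HasDerivAt (fun s => ∫ t in (0 : ℝ)..s, g t) (g s) s := by
      refine intervalIntegral.integral_hasDerivAt_right (ContinuousOn.intervalIntegrable ?_)
        (ContinuousAt.stronglyMeasurableAtFilter (hS.preimage hγc) hc s (hmem s hs))
        (hc s (hmem s hs))
      rw [Set.uIcc_of_le hs.1]
      exact fun t ht => (hc t (hmem t ⟨ht.1, ht.2.trans hs.2⟩)).continuousWithinAt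
    have h2 : HasDerivAt (fun s => zf (γ s)) (deriv zf (γ s) * (w' - w)) s :=
      (ha _ (hmem s hs).1).differentiableAt.hasDerivAt.comp s (hγd s)
    have h3 := h2.mul h1.neg.cexp
    have h0 : zf (γ s) ≠ 0 := (hmem s hs).2
    refine h3.congr_deriv ?_
    simp only [hg, ld, Pi.neg_apply]
    field_simp
    ring
  have hk := constant_of_has_deriv_right_zero
    (fun s hs => (hd s hs).continuousAt.continuousWithinAt)
    (fun s hs => (hd s ⟨hs.1, hs.2.le⟩).hasDerivWithinAt) 1 ⟨zero_le_one, le_rfl⟩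
  have e0 : γ 0 = w := by simp [hγ]
  have e1 : γ 1 = w' := by simp [hγ]
  simp only [intervalIntegral.integral_same, neg_zero, exp_zero, mul_one, e0, e1] at hk
  have h0 : zf w ≠ 0 := e0 ▸ (hmem 0 ⟨le_rfl, zero_le_one⟩).2
  have key : zf w' = zf w * exp (∫ t in (0 : ℝ)..1, g t) := by
    rw [← hk, mul_assoc, ← exp_add, neg_add_cancel, exp_zero, mul_one]
  refine ⟨key, fun M hM => ?_⟩
  have hn : ‖∫ t in (0 : ℝ)..1, g t‖ ≤ M * ‖w' - w‖ := by
    have := intervalIntegral.norm_integral_le_of_norm_le_const (a := 0) (b := 1) (f := g)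
      (C := M * ‖w' - w‖) fun t ht => by
        rw [Set.uIoc_of_le zero_le_one] at ht
        rw [hg, norm_mul]
        exact mul_le_mul_of_nonneg_right (hM t ht.1.le ht.2) (norm_nonneg _)
    simpa using this
  rw [key]
  constructor
  · rw [mul_div_cancel_left₀ _ h0]
    exact (norm_exp_le_exp_norm _).trans (Real.exp_le_exp.2 hn)
  · rw [div_mul_cancel_left₀ h0, ← exp_neg]
    exact (norm_exp_le_exp_norm _).trans (Real.exp_le_exp.2 (by rwa [norm_neg]))

end Pool.Agent.MP_ca0a54_nt.H88
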